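import Mathlib

set_option autoImplicit false

/-!
# The number of quotients `a_j / gcd (a_i, a_j)`

Let `h n` be the least possible number of distinct quotients `a_j / gcd (a_i, a_j)` of `n` distinct
positive integers.  We show that `log (h n) / log n` tends to `1 / 2`.

Lower bound: for fixed `i` the number `a_j` is determined by the two quotients
`a_j / gcd (a_i, a_j)` and `a_i / gcd (a_i, a_j)`, so `n ≤ (h n) ^ 2`.

Upper bound: in terms of exponent vectors the quotients are the truncated differences `x - y`.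
Starting with `A = {0, ..., N - 1}` we pass from a set `A` of vectors with entries below `L` to the set
of all `(u + t L, v + (N - 1 - t) L)` with `u, v` in `A` and `t < N`.  After `j` steps one has
`N ^ (2 ^ (j + 1) - 1)` vectors and only `O (N ^ (2 ^ j))` truncated differences.
-/

namespace Pool.Agent.Results.MP_f9e5d9_nt.LimitHalf

open Finset Filter

/-- the set of all quotients `b / gcd (a, b)` with `a, b ∈ A` -/
def quotients (A : Finset ℕ) : Finset ℕ :=
  (A ×ˢ A).image fun x => x.2 / Nat.gcd x.1 x.2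

/-- `h n` is the minimum of the number of quotients over all sets of `n` positive integers -/
noncomputable def h (n : ℕ) : ℕ :=
  sInf {k | ∃ A : Finset ℕ, A.card = n ∧ (∀ a ∈ A, 0 < a) ∧ (quotients A).card = k}

lemma quotients_mono {A B : Finset ℕ} (hAB : A ⊆ B) : quotients A ⊆ quotients B :=
  Finset.image_subset_image (Finset.product_subset_product hAB hAB)

lemma h_nonempty (n : ℕ) :
    {k | ∃ A : Finset ℕ, A.card = n ∧ (∀ a ∈ A, 0 < a) ∧ (quotients A).card = k}.Nonempty := by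
  refine ⟨_, Finset.Icc 1 n, by simp, ?_, rfl⟩
  intro a ha
  have := (Finset.mem_Icc.1 ha).1
  omega

/-- the lower bound -/
lemma le_h_sq (n : ℕ) : n ≤ h n ^ 2 := by
  obtain ⟨A, hA, hpos, hk⟩ := Nat.sInf_mem (h_nonempty n)
  change n ≤ (sInf {k | ∃ A : Finset ℕ, A.card = n ∧ (∀ a ∈ A, 0 < a) ∧
    (quotients A).card = k}) ^ 2
  rw [← hk]
  rcases A.eq_empty_or_nonempty with rfl | ⟨a, ha⟩
  · simp at hA; omega
  have hmap : ∀ b ∈ A, (b / Nat.gcd a b, a / Nat.gcd b a) ∈ quotients A ×ˢ quotients A := by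
    intro b hb
    rw [Finset.mem_product]
    exact ⟨Finset.mem_image.2 ⟨(a, b), Finset.mem_product.2 ⟨ha, hb⟩, rfl⟩,
      Finset.mem_image.2 ⟨(b, a), Finset.mem_product.2 ⟨hb, ha⟩, rfl⟩⟩
  have hinj : Set.InjOn (fun b => (b / Nat.gcd a b, a / Nat.gcd b a)) (A : Set ℕ) := by
    intro b hb c hc hbc
    simp only [Prod.mk.injEq] at hbc
    obtain ⟨h1, h2⟩ := hbc
    have hb0 := hpos b (Finset.mem_coe.1 hb)
    have hc0 := hpos c (Finset.mem_coe.1 hc)
    have ha0 := hpos a ha
    have e1 : Nat.gcd a b * (b / Nat.gcd a b) = b := Nat.mul_div_cancel' (Nat.gcd_dvd_right a b)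
    have e2 : Nat.gcd a c * (c / Nat.gcd a c) = c := Nat.mul_div_cancel' (Nat.gcd_dvd_right a c)
    have e3 : Nat.gcd b a * (a / Nat.gcd b a) = a := Nat.mul_div_cancel' (Nat.gcd_dvd_right b a)
    have e4 : Nat.gcd c a * (a / Nat.gcd c a) = a := Nat.mul_div_cancel' (Nat.gcd_dvd_right c a)
    have hne : 0 < a / Nat.gcd b a := by
      rcases Nat.eq_zero_or_pos (a / Nat.gcd b a) with h0 | h0
      · rw [h0] at e3; omega
      · exact h0
    rw [← h2] at e4
    have hg : Nat.gcd b a = Nat.gcd c a := Nat.eq_of_mul_eq_mul_right hne (by rw [e3, e4])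
    rw [Nat.gcd_comm b a, Nat.gcd_comm c a] at hg
    rw [← h1, ← hg] at e2
    rw [← e1, e2]
  have hcard := Finset.card_le_card_of_injOn _ hmap hinj
  rw [Finset.card_product, hA] at hcard
  rw [sq]
  exact hcard

/-! ### vectors -/

section vectors

open Classical

variable {ι : Type}

/-- truncated differences -/
noncomputable def tr (A : Finset (ι → ℕ)) : Finset (ι → ℕ) := (A ×ˢ A).image fun x => x.1 - x.2

/-- full differences -/
noncomputable def df (A : Finset (ι → ℕ)) : Finset (ι → ℤ) :=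
  (A ×ˢ A).image fun x i => (x.1 i : ℤ) - (x.2 i : ℤ)

lemma mem_tr {A : Finset (ι → ℕ)} {z : ι → ℕ} : z ∈ tr A ↔ ∃ x ∈ A, ∃ y ∈ A, x - y = z := by
  unfold tr
  rw [Finset.mem_image]
  constructor
  · rintro ⟨⟨x, y⟩, hxy, rfl⟩
    obtain ⟨hx, hy⟩ := Finset.mem_product.1 hxy
    exact ⟨x, hx, y, hy, rfl⟩
  · rintro ⟨x, hx, y, hy, rfl⟩
    exact ⟨(x, y), Finset.mem_product.2 ⟨hx, hy⟩, rfl⟩

lemma mem_df {A : Finset (ι → ℕ)} {z : ι → ℤ} :
    z ∈ df A ↔ ∃ x ∈ A, ∃ y ∈ A, (fun i => (x i : ℤ) - (y i : ℤ)) = z := by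
  unfold df
  rw [Finset.mem_image]
  constructor
  · rintro ⟨⟨x, y⟩, hxy, rfl⟩
    obtain ⟨hx, hy⟩ := Finset.mem_product.1 hxy
    exact ⟨x, hx, y, hy, rfl⟩
  · rintro ⟨x, hx, y, hy, rfl⟩
    exact ⟨(x, y), Finset.mem_product.2 ⟨hx, hy⟩, rfl⟩

/-- the recursive step -/
def stepFun (N L : ℕ) (x : ℕ × (ι → ℕ) × (ι → ℕ)) : ι ⊕ ι → ℕ :=
  Sum.elim (fun i => x.2.1 i + x.1 * L) (fun i => x.2.2 i + (N - 1 - x.1) * L)

noncomputable def step (N L : ℕ) (A : Finset (ι → ℕ)) : Finset (ι ⊕ ι → ℕ) :=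
  (Finset.range N ×ˢ (A ×ˢ A)).image (stepFun N L)

lemma digit {L a b s t : ℕ} (ha : a < L) (hb : b < L) (he : a + s * L = b + t * L) :
    s = t ∧ a = b := by
  have hL : 0 < L := by omega
  have h1 : (a + s * L) / L = (b + t * L) / L := by rw [he]
  rw [Nat.add_mul_div_right _ _ hL, Nat.add_mul_div_right _ _ hL, Nat.div_eq_of_lt ha,
    Nat.div_eq_of_lt hb] at h1
  have h2 : s = t := by omega
  subst h2
  exact ⟨rfl, by omega⟩

lemma step_card [Nonempty ι] (N L : ℕ) (A : Finset (ι → ℕ)) (hA : ∀ x ∈ A, ∀ i, x i < L) :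
    (step N L A).card = N * A.card ^ 2 := by
  unfold step
  rw [Finset.card_image_of_injOn]
  · rw [Finset.card_product, Finset.card_product, Finset.card_range]; ring
  · rintro ⟨s, u, v⟩ hx ⟨t, u', v'⟩ hy hxy
    simp only [Finset.coe_product, Set.mem_prod, Finset.mem_coe, Finset.mem_range] at hx hy
    obtain ⟨hs, hu, hv⟩ := hx
    obtain ⟨ht, hu', hv'⟩ := hy
    have hl : ∀ i, s = t ∧ u i = u' i := by
      intro i
      have := congrFun hxy (Sum.inl i)
      simp only [stepFun, Sum.elim_inl] at this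
      exact digit (hA u hu i) (hA u' hu' i) this
    have hr : ∀ i, v i = v' i := by
      intro i
      have := congrFun hxy (Sum.inr i)
      simp only [stepFun, Sum.elim_inr] at this
      exact (digit (hA v hv i) (hA v' hv' i) this).2
    obtain ⟨i₀⟩ := (inferInstance : Nonempty ι)
    have h1 := (hl i₀).1
    have h2 : u = u' := funext fun i => (hl i).2
    have h3 : v = v' := funext hr
    rw [h1, h2, h3]

lemma step_lt (N L : ℕ) (A : Finset (ι → ℕ)) (hA : ∀ x ∈ A, ∀ i, x i < L) :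
    ∀ x ∈ step N L A, ∀ i, x i < N * L := by
  intro x hx i
  unfold step at hx
  obtain ⟨⟨t, u, v⟩, hm, rfl⟩ := Finset.mem_image.1 hx
  simp only [Finset.mem_product, Finset.mem_range] at hm
  obtain ⟨ht, hu, hv⟩ := hm
  rcases i with i | i
  · simp only [stepFun, Sum.elim_inl]
    have := hA u hu i
    calc u i + t * L < L + t * L := by omega
      _ = (t + 1) * L := by ring
      _ ≤ N * L := Nat.mul_le_mul_right _ ht
  · simp only [stepFun, Sum.elim_inr]
    have := hA v hv i
    calc v i + (N - 1 - t) * L < L + (N - 1 - t) * L := by omega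
      _ = (N - 1 - t + 1) * L := by ring
      _ ≤ N * L := Nat.mul_le_mul_right _ (by omega)

lemma step_df (N L : ℕ) (A : Finset (ι → ℕ)) :
    (df (step N L A)).card ≤ (2 * N) * (df A).card ^ 2 := by
  have hsub : df (step N L A) ⊆ (Finset.Ico (-(N : ℤ)) N ×ˢ (df A ×ˢ df A)).image
      (fun x => Sum.elim (fun i => x.2.1 i + x.1 * L) (fun i => x.2.2 i - x.1 * L)) := by
    intro z hz
    obtain ⟨⟨x, y⟩, hxy, rfl⟩ := Finset.mem_image.1 hz
    obtain ⟨hx, hy⟩ := Finset.mem_product.1 hxy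
    simp only at hx hy
    obtain ⟨⟨s, u, v⟩, hm, rfl⟩ := Finset.mem_image.1 hx
    obtain ⟨⟨t, u', v'⟩, hm', rfl⟩ := Finset.mem_image.1 hy
    simp only [Finset.mem_product, Finset.mem_range] at hm hm'
    refine Finset.mem_image.2 ⟨((s : ℤ) - t, fun i => (u i : ℤ) - u' i, fun i => (v i : ℤ) - v' i),
      ?_, ?_⟩
    · simp only [Finset.mem_product, Finset.mem_Ico]
      refine ⟨⟨by omega, by omega⟩, ?_, ?_⟩
      · exact Finset.mem_image.2 ⟨(u, u'), Finset.mem_product.2 ⟨hm.2.1, hm'.2.1⟩, rfl⟩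
      · exact Finset.mem_image.2 ⟨(v, v'), Finset.mem_product.2 ⟨hm.2.2, hm'.2.2⟩, rfl⟩
    · funext i
      rcases i with i | i
      · simp only [stepFun, Sum.elim_inl]; push_cast; ring
      · simp only [stepFun, Sum.elim_inr]
        have e1 : ((N - 1 - s : ℕ) : ℤ) = N - 1 - s := by omega
        have e2 : ((N - 1 - t : ℕ) : ℤ) = N - 1 - t := by omega
        push_cast [e1, e2]
        ring
  refine (Finset.card_le_card hsub).trans (Finset.card_image_le.trans ?_)
  rw [Finset.card_product, Finset.card_product, Int.card_Ico]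
  have : ((N : ℤ) - -(N : ℤ)).toNat = 2 * N := by omega
  rw [this, sq]

lemma step_tr (N L : ℕ) (A : Finset (ι → ℕ)) (hA : ∀ x ∈ A, ∀ i, x i < L) :
    (tr (step N L A)).card ≤ (tr A).card ^ 2 + 2 * N * (df A).card := by
  have hsub : tr (step N L A) ⊆
      ((tr A ×ˢ tr A).image (fun x => Sum.elim x.1 x.2)) ∪
      (((Finset.range N ×ˢ df A).image
        (fun x : ℕ × (ι → ℤ) => Sum.elim (fun i => (x.2 i + x.1 * L).toNat) 0)) ∪
      ((Finset.range N ×ˢ df A).image
        (fun x : ℕ × (ι → ℤ) => Sum.elim 0 (fun i => (x.2 i + x.1 * L).toNat)))) := by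
    intro z hz
    obtain ⟨⟨x, y⟩, hxy, rfl⟩ := Finset.mem_image.1 hz
    obtain ⟨hx, hy⟩ := Finset.mem_product.1 hxy
    simp only at hx hy
    obtain ⟨⟨s, u, v⟩, hm, rfl⟩ := Finset.mem_image.1 hx
    obtain ⟨⟨t, u', v'⟩, hm', rfl⟩ := Finset.mem_image.1 hy
    simp only [Finset.mem_product, Finset.mem_range] at hm hm'
    obtain ⟨hs, hu, hv⟩ := hm
    obtain ⟨ht, hu', hv'⟩ := hm'
    rcases lt_trichotomy s t with hst | hst | hst
    · -- the second half is positive
      refine Finset.mem_union_right _ (Finset.mem_union_right _ ?_)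
      refine Finset.mem_image.2 ⟨(t - s, fun i => (v i : ℤ) - v' i), ?_, ?_⟩
      · refine Finset.mem_product.2 ⟨Finset.mem_range.2 (by simp only; omega), ?_⟩
        exact Finset.mem_image.2 ⟨(v, v'), Finset.mem_product.2 ⟨hv, hv'⟩, rfl⟩
      · funext i
        rcases i with i | i
        · simp only [stepFun, Sum.elim_inl, Pi.sub_apply, Pi.zero_apply]
          have h1 := hA u hu i
          have h2 : u i + s * L ≤ u' i + t * L := by
            calc u i + s * L ≤ L + s * L := by omega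
              _ = (s + 1) * L := by ring
              _ ≤ t * L := Nat.mul_le_mul_right _ hst
              _ ≤ _ := by omega
          omega
        · simp only [stepFun, Sum.elim_inr, Pi.sub_apply]
          have h1 := hA v' hv' i
          have e0 : N - 1 - s = (N - 1 - t) + (t - s) := by omega
          have h2 : v' i + (N - 1 - t) * L ≤ v i + (N - 1 - s) * L := by
            rw [e0]
            have : L ≤ (t - s) * L := Nat.le_mul_of_pos_left _ (by omega)
            nlinarith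
          rw [e0] at h2 ⊢
          have h3 : ((v i + (N - 1 - t + (t - s)) * L - (v' i + (N - 1 - t) * L) : ℕ) : ℤ) =
              (v i : ℤ) - v' i + ((t - s : ℕ) : ℤ) * L := by
            rw [Nat.cast_sub h2]; push_cast; ring
          rw [← h3]; simp
    · subst hst
      refine Finset.mem_union_left _ ?_
      refine Finset.mem_image.2 ⟨(u - u', v - v'), ?_, ?_⟩
      · refine Finset.mem_product.2 ⟨?_, ?_⟩
        · exact Finset.mem_image.2 ⟨(u, u'), Finset.mem_product.2 ⟨hu, hu'⟩, rfl⟩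
        · exact Finset.mem_image.2 ⟨(v, v'), Finset.mem_product.2 ⟨hv, hv'⟩, rfl⟩
      · funext i
        rcases i with i | i
        · simp only [stepFun, Sum.elim_inl, Pi.sub_apply]; omega
        · simp only [stepFun, Sum.elim_inr, Pi.sub_apply]; omega
    · refine Finset.mem_union_right _ (Finset.mem_union_left _ ?_)
      refine Finset.mem_image.2 ⟨(s - t, fun i => (u i : ℤ) - u' i), ?_, ?_⟩
      · refine Finset.mem_product.2 ⟨Finset.mem_range.2 (by simp only; omega), ?_⟩
        exact Finset.mem_image.2 ⟨(u, u'), Finset.mem_product.2 ⟨hu, hu'⟩, rfl⟩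
      · funext i
        rcases i with i | i
        · simp only [stepFun, Sum.elim_inl, Pi.sub_apply]
          have h1 := hA u' hu' i
          have e0 : s = t + (s - t) := by omega
          have h2 : u' i + t * L ≤ u i + s * L := by
            have : L ≤ (s - t) * L := Nat.le_mul_of_pos_left _ (by omega)
            rw [e0]
            nlinarith
          have h3 : ((u i + s * L - (u' i + t * L) : ℕ) : ℤ) =
              (u i : ℤ) - u' i + ((s - t : ℕ) : ℤ) * L := by
            rw [Nat.cast_sub h2, Nat.cast_sub (le_of_lt hst)]; push_cast; ring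
          rw [← h3]; simp
        · simp only [stepFun, Sum.elim_inr, Pi.sub_apply, Pi.zero_apply]
          have h1 := hA v hv i
          have e0 : N - 1 - t = (N - 1 - s) + (s - t) := by omega
          have h2 : v i + (N - 1 - s) * L ≤ v' i + (N - 1 - t) * L := by
            rw [e0]
            have : L ≤ (s - t) * L := Nat.le_mul_of_pos_left _ (by omega)
            nlinarith
          omega
  refine (Finset.card_le_card hsub).trans ?_
  refine (Finset.card_union_le _ _).trans ?_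
  refine Nat.add_le_add ?_ ?_
  · refine Finset.card_image_le.trans ?_
    rw [Finset.card_product, sq]
  · refine (Finset.card_union_le _ _).trans ?_
    have h1 := Finset.card_image_le (s := Finset.range N ×ˢ df A)
      (f := fun x : ℕ × (ι → ℤ) => (Sum.elim (fun i => (x.2 i + x.1 * L).toNat) 0 : ι ⊕ ι → ℕ))
    have h2 := Finset.card_image_le (s := Finset.range N ×ˢ df A)
      (f := fun x : ℕ × (ι → ℤ) => (Sum.elim 0 (fun i => (x.2 i + x.1 * L).toNat) : ι ⊕ ι → ℕ))
    rw [Finset.card_product, Finset.card_range] at h1 h2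
    calc _ ≤ N * (df A).card + N * (df A).card := Nat.add_le_add h1 h2
      _ = 2 * N * (df A).card := by ring

end vectors

open Classical in
/-- the sets obtained after `j` steps -/
lemma exists_vectors (j : ℕ) : ∃ C : ℕ, ∀ N : ℕ, 0 < N →
    ∃ (ι : Type) (_ : Finite ι) (_ : Nonempty ι) (A : Finset (ι → ℕ)) (L : ℕ),
      (∀ x ∈ A, ∀ i, x i < L) ∧ A.card = N ^ (2 ^ (j + 1) - 1) ∧
      (tr A).card ≤ C * N ^ (2 ^ j) ∧ (df A).card ≤ (2 * N) ^ (2 ^ (j + 1) - 1) := by
  induction j with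
  | zero =>
    let emb : ℕ ↪ (Unit → ℕ) := ⟨fun t _ => t, fun a b hab => congrFun hab ()⟩
    let embZ : ℤ ↪ (Unit → ℤ) := ⟨fun t _ => t, fun a b hab => congrFun hab ()⟩
    refine ⟨1, fun N hN => ⟨Unit, inferInstance, inferInstance,
      (Finset.range N).map emb, N, ?_, ?_, ?_, ?_⟩⟩
    · intro x hx i
      obtain ⟨t, ht, rfl⟩ := Finset.mem_map.1 hx
      exact Finset.mem_range.1 ht
    · simp
    · have hsub : tr ((Finset.range N).map emb) ⊆ (Finset.range N).map emb := by
        intro z hz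
        obtain ⟨x, hx, y, hy, rfl⟩ := mem_tr.1 hz
        obtain ⟨s, hs, hs'⟩ := Finset.mem_map.1 hx
        obtain ⟨t, ht, ht'⟩ := Finset.mem_map.1 hy
        refine Finset.mem_map.2 ⟨s - t, Finset.mem_range.2 ?_, ?_⟩
        · have := Finset.mem_range.1 hs; omega
        · rw [← hs', ← ht']
          rfl
      refine (Finset.card_le_card hsub).trans ?_
      simp
    · have hsub : df ((Finset.range N).map emb) ⊆ (Finset.Ico (-(N : ℤ)) N).map embZ := by
        intro z hz
        obtain ⟨x, hx, y, hy, rfl⟩ := mem_df.1 hz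
        obtain ⟨s, hs, hs'⟩ := Finset.mem_map.1 hx
        obtain ⟨t, ht, ht'⟩ := Finset.mem_map.1 hy
        have := Finset.mem_range.1 hs
        have := Finset.mem_range.1 ht
        refine Finset.mem_map.2 ⟨(s : ℤ) - t, Finset.mem_Ico.2 ⟨by omega, by omega⟩, ?_⟩
        rw [← hs', ← ht']
        rfl
      refine (Finset.card_le_card hsub).trans ?_
      rw [Finset.card_map, Int.card_Ico]
      have : ((N : ℤ) - -(N : ℤ)).toNat = 2 * N := by omega
      rw [this]
      simp
  | succ j ih =>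
    obtain ⟨C, hC⟩ := ih
    refine ⟨C ^ 2 + 2 ^ (2 ^ (j + 1)), fun N hN => ?_⟩
    obtain ⟨ι, h1, h2, A, L, hL, hcard, htr, hdf⟩ := hC N hN
    obtain ⟨k, hk⟩ : ∃ k, 2 ^ (j + 1) = k + 1 := ⟨2 ^ (j + 1) - 1, by
      have : 0 < 2 ^ (j + 1) := by positivity
      omega⟩
    have hk2 : 2 ^ (j + 1 + 1) - 1 = 2 * k + 1 := by rw [pow_succ, hk]; omega
    have hk1 : 2 ^ (j + 1) - 1 = k := by omega
    rw [hk1] at hcard hdf
    refine ⟨ι ⊕ ι, inferInstance, inferInstance, step N L A, N * L, step_lt N L A hL, ?_, ?_, ?_⟩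
    · rw [step_card N L A hL, hcard, hk2]; ring
    · refine (step_tr N L A hL).trans ?_
      have e1 : (tr A).card ^ 2 ≤ C ^ 2 * N ^ (2 ^ (j + 1)) := by
        calc (tr A).card ^ 2 ≤ (C * N ^ (2 ^ j)) ^ 2 := Nat.pow_le_pow_left htr 2
          _ = C ^ 2 * N ^ (2 ^ (j + 1)) := by rw [mul_pow, ← pow_mul, pow_succ 2 j]
      have e2 : 2 * N * (df A).card ≤ 2 ^ (2 ^ (j + 1)) * N ^ (2 ^ (j + 1)) := by
        calc 2 * N * (df A).card ≤ 2 * N * (2 * N) ^ k := Nat.mul_le_mul_left _ hdf
          _ = (2 * N) ^ (2 ^ (j + 1)) := by rw [hk, pow_succ]; ring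
          _ = _ := mul_pow _ _ _
      calc _ ≤ C ^ 2 * N ^ (2 ^ (j + 1)) + 2 ^ (2 ^ (j + 1)) * N ^ (2 ^ (j + 1)) :=
            Nat.add_le_add e1 e2
        _ = _ := by ring
    · refine (step_df N L A).trans ?_
      rw [hk2]
      calc 2 * N * (df A).card ^ 2 ≤ 2 * N * ((2 * N) ^ k) ^ 2 :=
            Nat.mul_le_mul_left _ (Nat.pow_le_pow_left hdf 2)
        _ = _ := by ring

/-! ### back to integers -/

open Classical in
lemma exists_integers {ι : Type} [Finite ι] (A : Finset (ι → ℕ)) :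
    ∃ B : Finset ℕ, B.card = A.card ∧ (∀ b ∈ B, 0 < b) ∧ (quotients B).card ≤ (tr A).card := by
  have := Fintype.ofFinite ι
  let e := Fintype.equivFin ι
  let p : ι → ℕ := fun i => Nat.nth Nat.Prime (e i)
  have hp : ∀ i, (p i).Prime := fun i => Nat.prime_nth_prime _
  have hinj : Function.Injective p := by
    intro i j hij
    have h1 := Nat.nth_injective Nat.infinite_setOfPred_prime hij
    exact e.injective (Fin.ext h1)
  let f : (ι → ℕ) → ℕ := fun x => ∏ i, p i ^ x i
  have hf0 : ∀ x, 0 < f x := fun x => Finset.prod_pos fun i _ => pow_pos (hp i).pos _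
  have hadd : ∀ x y, f (x + y) = f x * f y := by
    intro x y
    simp only [f, Pi.add_apply, pow_add, Finset.prod_mul_distrib]
  have hcop : ∀ x y : ι → ℕ, (∀ i, x i = 0 ∨ y i = 0) → Nat.Coprime (f x) (f y) := by
    intro x y hxy
    refine Nat.Coprime.prod_left fun i _ => Nat.Coprime.prod_right fun j _ => ?_
    by_cases hij : i = j
    · subst hij
      rcases hxy i with h0 | h0 <;> rw [h0] <;> simp
    · exact Nat.Coprime.pow _ _ ((Nat.coprime_primes (hp i) (hp j)).2 fun h => hij (hinj h))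
  have hgcd : ∀ x y : ι → ℕ, Nat.gcd (f x) (f y) = f (x ⊓ y) := by
    intro x y
    have hx : x = x ⊓ y + (x - y) := by
      funext i; simp only [Pi.add_apply, Pi.inf_apply, Pi.sub_apply]; omega
    have hy : y = x ⊓ y + (y - x) := by
      funext i; simp only [Pi.add_apply, Pi.inf_apply, Pi.sub_apply]; omega
    have hc : Nat.gcd (f (x - y)) (f (y - x)) = 1 := hcop _ _ fun i => by
      simp only [Pi.sub_apply]; omega
    calc Nat.gcd (f x) (f y) = Nat.gcd (f (x ⊓ y + (x - y))) (f (x ⊓ y + (y - x))) := by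
          rw [← hx, ← hy]
      _ = f (x ⊓ y) := by rw [hadd, hadd, Nat.gcd_mul_left, hc, mul_one]
  have hquot : ∀ x y : ι → ℕ, f y / Nat.gcd (f x) (f y) = f (y - x) := by
    intro x y
    have hy : y = x ⊓ y + (y - x) := by
      funext i; simp only [Pi.add_apply, Pi.inf_apply, Pi.sub_apply]; omega
    rw [hgcd]
    have : f y = f (x ⊓ y) * f (y - x) := by
      rw [← hadd, ← hy]
    rw [this, Nat.mul_div_cancel_left _ (hf0 _)]
  have hfinj : Function.Injective f := by
    intro x y hxy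
    have h1 := hquot x y
    have h2 := hquot y x
    rw [hxy, Nat.gcd_self, Nat.div_self (hf0 _)] at h1 h2
    have hone : ∀ z : ι → ℕ, 1 = f z → ∀ i, z i = 0 := by
      intro z hz i
      by_contra hne
      have hd : p i ∣ f z :=
        (dvd_pow_self (p i) hne).trans (Finset.dvd_prod_of_mem (fun i => p i ^ z i) (Finset.mem_univ i))
      rw [← hz] at hd
      exact (hp i).one_lt.ne' (Nat.dvd_one.1 hd)
    funext i
    have e1 := hone _ h1 i
    have e2 := hone _ h2 i
    simp only [Pi.sub_apply] at e1 e2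
    omega
  refine ⟨A.image f, Finset.card_image_of_injective _ hfinj, ?_, ?_⟩
  · intro b hb
    obtain ⟨x, -, rfl⟩ := Finset.mem_image.1 hb
    exact hf0 x
  · have hsub : quotients (A.image f) ⊆ (tr A).image f := by
      intro q hq
      obtain ⟨⟨a, b⟩, hab, rfl⟩ := Finset.mem_image.1 hq
      obtain ⟨ha, hb⟩ := Finset.mem_product.1 hab
      obtain ⟨x, hx, hx'⟩ := Finset.mem_image.1 ha
      obtain ⟨y, hy, hy'⟩ := Finset.mem_image.1 hb
      simp only at hx' hy'
      simp only [← hx', ← hy']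
      rw [hquot]
      exact Finset.mem_image.2 ⟨y - x, mem_tr.2 ⟨y, hy, x, hx, rfl⟩, rfl⟩
    exact (Finset.card_le_card hsub).trans Finset.card_image_le

/-- the upper bound for `h` -/
lemma h_le (j : ℕ) : ∃ C : ℕ, ∀ N n : ℕ, 0 < N → n ≤ N ^ (2 ^ (j + 1) - 1) → h n ≤ C * N ^ (2 ^ j) := by
  obtain ⟨C, hC⟩ := exists_vectors j
  refine ⟨C, fun N n hN hn => ?_⟩
  obtain ⟨ι, h1, h2, A, L, hL, hcard, htr, hdf⟩ := hC N hN
  obtain ⟨B, hB1, hB2, hB3⟩ := exists_integers A
  obtain ⟨B', hB', hcard'⟩ := Finset.exists_subset_card_eq (s := B) (n := n) (by rw [hB1, hcard]; exact hn)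
  have h3 : h n ≤ (quotients B').card :=
    Nat.sInf_le ⟨B', hcard', fun b hb => hB2 b (hB' hb), rfl⟩
  exact h3.trans ((Finset.card_le_card (quotients_mono hB')).trans (hB3.trans htr))

/-- `log (h n) / log n → 1 / 2` -/
theorem result :
    Tendsto (fun n : ℕ => Real.log (h n) / Real.log n) atTop (nhds (1 / 2)) := by
  rw [Metric.tendsto_atTop]
  intro ε hε
  -- choose `j` with `1 / 2 ^ j < ε`
  obtain ⟨j, hj⟩ := exists_pow_lt_of_lt_one hε (show (1 / 2 : ℝ) < 1 by norm_num)
  obtain ⟨C, hC⟩ := h_le j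
  obtain ⟨k, hk⟩ : ∃ k, 2 ^ (j + 1) - 1 = k := ⟨_, rfl⟩
  have h2j : 0 < 2 ^ j := by positivity
  have hk' : k + 1 = 2 * 2 ^ j := by rw [← hk, pow_succ]; omega
  have hk0 : 0 < k := by omega
  rw [hk] at hC
  -- the logarithm tends to infinity
  have hlog : Tendsto (fun n : ℕ => Real.log n) atTop atTop :=
    Real.tendsto_log_atTop.comp tendsto_natCast_atTop_atTop
  obtain ⟨n₀, hn₀⟩ := (hlog.eventually_ge_atTop
    (((2 : ℝ) ^ j * Real.log 2 + Real.log (C + 1)) / (ε - (1 / 2) ^ j) + 1)).exists_forall_of_atTop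
  refine ⟨max n₀ 2, fun n hn => ?_⟩
  have hn2 : 2 ≤ n := le_trans (le_max_right _ _) hn
  have hln := hn₀ n (le_trans (le_max_left _ _) hn)
  have hεj : 0 < ε - (1 / 2) ^ j := by linarith
  have hnR : (2 : ℝ) ≤ n := by exact_mod_cast hn2
  have hl0 : 0 < Real.log n := Real.log_pos (by linarith)
  have hh0 : 0 < h n := by
    rcases Nat.eq_zero_or_pos (h n) with h0 | h0
    · have := le_h_sq n
      rw [h0] at this
      omega
    · exact h0
  have hhR : (0 : ℝ) < h n := by exact_mod_cast hh0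
  -- lower bound
  have hlow : (1 / 2) * Real.log n ≤ Real.log (h n) := by
    have h1 : (n : ℝ) ≤ (h n : ℝ) ^ 2 := by exact_mod_cast le_h_sq n
    have h2 := Real.log_le_log (by linarith) h1
    rw [Real.log_pow] at h2
    push_cast at h2
    linarith
  -- upper bound
  obtain ⟨N, hN1, hN2⟩ : ∃ N : ℕ, n ≤ N ^ k ∧ (N : ℝ) ≤ 2 * (n : ℝ) ^ ((1 : ℝ) / k) := by
    refine ⟨⌈(n : ℝ) ^ ((1 : ℝ) / k)⌉₊, ?_, ?_⟩
    · have h1 : (n : ℝ) ^ ((1 : ℝ) / k) ≤ (⌈(n : ℝ) ^ ((1 : ℝ) / k)⌉₊ : ℝ) := Nat.le_ceil _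
      have h2 := pow_le_pow_left₀ (by positivity) h1 k
      rw [← Real.rpow_natCast, ← Real.rpow_mul (by positivity)] at h2
      have h3 : (1 : ℝ) / k * k = 1 := by field_simp
      rw [h3, Real.rpow_one] at h2
      exact_mod_cast h2
    · have h1 := Nat.ceil_lt_add_one (show 0 ≤ (n : ℝ) ^ ((1 : ℝ) / k) by positivity)
      have h2 : 1 ≤ (n : ℝ) ^ ((1 : ℝ) / k) := Real.one_le_rpow (by linarith) (by positivity)
      linarith
  have hN0 : 0 < N := by
    rcases Nat.eq_zero_or_pos N with h0 | h0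
    · rw [h0, zero_pow (by omega)] at hN1; omega
    · exact h0
  have hNR : (0 : ℝ) < N := by exact_mod_cast hN0
  have hup : Real.log (h n) ≤ Real.log (C + 1) + 2 ^ j * (Real.log 2 + 1 / k * Real.log n) := by
    have h1 : (h n : ℝ) ≤ (C + 1) * (N : ℝ) ^ (2 ^ j) := by
      have h2 : (h n : ℝ) ≤ C * (N : ℝ) ^ (2 ^ j) := by exact_mod_cast hC N n hN0 hN1
      have h3 : 0 ≤ (N : ℝ) ^ (2 ^ j) := by positivity
      linarith
    have h4 := Real.log_le_log hhR h1
    rw [Real.log_mul (by positivity) (by positivity), Real.log_pow] at h4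
    have h5 := Real.log_le_log hNR hN2
    rw [Real.log_mul (by norm_num) (by positivity), Real.log_rpow (by linarith)] at h5
    push_cast at h4
    have h6 : (2 : ℝ) ^ j * Real.log N ≤ 2 ^ j * (Real.log 2 + 1 / k * Real.log n) :=
      mul_le_mul_of_nonneg_left h5 (by positivity)
    linarith
  -- conclusion
  have hkR : (k : ℝ) + 1 = 2 * 2 ^ j := by exact_mod_cast hk'
  have hkpos : (0 : ℝ) < k := by exact_mod_cast hk0
  have hj1 : (1 : ℝ) ≤ 2 ^ j := one_le_pow₀ (by norm_num)
  have hratio : (2 : ℝ) ^ j * (1 / k) ≤ 1 / 2 + (1 / 2) ^ j := by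
    have e1 : (1 / 2 : ℝ) ^ j = 1 / 2 ^ j := by rw [div_pow, one_pow]
    rw [e1]
    have e2 : (k : ℝ) = 2 * 2 ^ j - 1 := by linarith
    rw [e2]
    have h3 : (0 : ℝ) < 2 * 2 ^ j - 1 := by linarith
    rw [mul_one_div, div_add_div _ _ (by norm_num) (by positivity), div_le_div_iff₀ h3 (by positivity)]
    nlinarith
  have hmain : Real.log (h n) ≤ (1 / 2 + (1 / 2) ^ j) * Real.log n +
      ((2 : ℝ) ^ j * Real.log 2 + Real.log (C + 1)) := by
    have h1 : (2 : ℝ) ^ j * (1 / k) * Real.log n ≤ (1 / 2 + (1 / 2) ^ j) * Real.log n :=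
      mul_le_mul_of_nonneg_right hratio hl0.le
    have h2 : (2 : ℝ) ^ j * (Real.log 2 + 1 / k * Real.log n) =
      2 ^ j * Real.log 2 + 2 ^ j * (1 / k) * Real.log n := by ring
    rw [h2] at hup
    linarith
  rw [Real.dist_eq, abs_lt]
  constructor
  · have : 1 / 2 ≤ Real.log (h n) / Real.log n := by
      rw [le_div_iff₀ hl0]; exact hlow
    linarith
  · have h1 : ((2 : ℝ) ^ j * Real.log 2 + Real.log (C + 1)) < (ε - (1 / 2) ^ j) * Real.log n := by
      have h2 : ((2 : ℝ) ^ j * Real.log 2 + Real.log (C + 1)) / (ε - (1 / 2) ^ j) < Real.log n := by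
        linarith
      rw [div_lt_iff₀ hεj] at h2
      linarith
    have h3 : Real.log (h n) / Real.log n < 1 / 2 + ε := by
      rw [div_lt_iff₀ hl0]
      nlinarith
    linarith

end Pool.Agent.Results.MP_f9e5d9_nt.LimitHalf
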